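import Pool.Agent.Lib.MP_ae8a84_co.Defs

namespace Pool.Agent.Lib.MP_ae8a84_co

/-- The vertices of a bigraph. -/
abbrev Bigraph.V (B : Bigraph) : Type := Fin B.s ⊕ Fin B.t

/-- Adjacency of two vertices. -/
def Bigraph.Adj (B : Bigraph) : B.V → B.V → Prop
  | .inl x, .inr y => B.E x y
  | .inr y, .inl x => B.E x y
  | .inl _, .inl _ => False
  | .inr _, .inr _ => False

/-- Formulas of existential infinitary logic with `k` variables over ordered bigraphs: atomic and
negated atomic formulas, conjunctions and disjunctions of arbitrary families, and the quantifiers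
`there are at least m vertices` (a variable may be quantified again). -/
inductive Fm (k : ℕ) : Type 1
  | left (i : Fin k) : Fm k
  | right (i : Fin k) : Fm k
  | adj (i j : Fin k) : Fm k
  | nadj (i j : Fin k) : Fm k
  | eq (i j : Fin k) : Fm k
  | ne (i j : Fin k) : Fm k
  | lt (i j : Fin k) : Fm k
  | all (ι : Type) (f : ι → Fm k) : Fm k
  | any (ι : Type) (f : ι → Fm k) : Fm k
  | ex (m : ℕ) (i : Fin k) (φ : Fm k) : Fm k

/-- Truth of a formula in a bigraph; `ρ` gives the values of the variables that have one. The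
order puts the first part before the second and orders each part by its numbering. -/
def Fm.Sat {k : ℕ} (B : Bigraph) : Fm k → (Fin k → Option B.V) → Prop
  | .left i, ρ => ∃ x, ρ i = some (.inl x)
  | .right i, ρ => ∃ y, ρ i = some (.inr y)
  | .adj i j, ρ => ∃ u v, ρ i = some u ∧ ρ j = some v ∧ B.Adj u v
  | .nadj i j, ρ => ∃ u v, ρ i = some u ∧ ρ j = some v ∧ ¬ B.Adj u v
  | .eq i j, ρ => ∃ u v, ρ i = some u ∧ ρ j = some v ∧ u = v
  | .ne i j, ρ => ∃ u v, ρ i = some u ∧ ρ j = some v ∧ u ≠ v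
  | .lt i j, ρ => ∃ u v, ρ i = some u ∧ ρ j = some v ∧ Sum.Lex (· < ·) (· < ·) u v
  | .all _ f, ρ => ∀ a, (f a).Sat B ρ
  | .any _ f, ρ => ∃ a, (f a).Sat B ρ
  | .ex m i φ, ρ =>
      ∃ S : Finset B.V, m ≤ S.card ∧ ∀ v ∈ S, φ.Sat B (Function.update ρ i (some v))

/-- Truth of a sentence: no variable has a value at the start. -/
def Fm.Holds {k : ℕ} (φ : Fm k) (B : Bigraph) : Prop := φ.Sat B fun _ => none

end Pool.Agent.Lib.MP_ae8a84_co
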