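import Pool.Agent.Lib.MP_ae8a84_co.Loc.Defs
import Pool.Agent.Lib.MP_ae8a84_co.Rep

/-!
The existential pebble game played with an injection of few pigeons into holes, and minimal
forbidden induced subgraphs inside a bigraph that is not an interval bigraph.
-/

namespace Pool.Agent.Lib.MP_ae8a84_co.Loc

open Finset

/-- `a` sends the pigeons of `D` to different holes below `n` -/
def GoodOn (n : ℕ) (a : ℕ → ℕ) (D : Finset ℕ) : Prop :=
  (∀ p ∈ D, a p < n) ∧ ∀ p ∈ D, ∀ q ∈ D, a p = a q → p = q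

theorem GoodOn.mono {n : ℕ} {a : ℕ → ℕ} {D D' : Finset ℕ} (h : GoodOn n a D) (e : D' ⊆ D) :
    GoodOn n a D' :=
  ⟨fun p hp => h.1 p (e hp), fun p hp q hq => h.2 p (e hp) q (e hq)⟩

theorem GoodOn.extend {n : ℕ} {a : ℕ → ℕ} {D : Finset ℕ} (h : GoodOn n a D) (S : Finset ℕ)
    (hc : (D ∪ S).card ≤ n) : ∃ a', (∀ p ∈ D, a' p = a p) ∧ GoodOn n a' (D ∪ S) := by
  induction S using Finset.induction_on with
  | empty => exact ⟨a, fun _ _ => rfl, by simpa using h⟩
  | insert p S _ ih =>
    rw [union_insert] at hc ⊢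
    obtain ⟨b, b1, b2⟩ := ih ((card_le_card (subset_insert _ _)).trans hc)
    by_cases hp : p ∈ D ∪ S
    · exact ⟨b, b1, by rwa [insert_eq_of_mem hp]⟩
    rw [card_insert_of_notMem hp] at hc
    obtain ⟨c, c1, c2⟩ := exists_mem_notMem_of_card_lt_card (s := (D ∪ S).image b) (t := range n)
      (card_image_le.trans_lt (by rw [card_range]; omega))
    have e : ∀ q ∈ D ∪ S, Function.update b p c q = b q := fun q hq =>
      Function.update_of_ne (fun e : q = p => hp (e ▸ hq)) _ _
    refine ⟨Function.update b p c, fun q hq => (e q (mem_union_left _ hq)).trans (b1 q hq),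
      fun q hq => ?_, fun q hq r hr h => ?_⟩
    · rcases mem_insert.1 hq with rfl | hq
      · simpa using c1
      · rw [e q hq]; exact b2.1 q hq
    · rcases mem_insert.1 hq with q1 | q1 <;> rcases mem_insert.1 hr with r1 | r1
      · rw [q1, r1]
      · rw [e r r1, q1, Function.update_self] at h
        exact absurd (mem_image.2 ⟨r, r1, h.symm⟩) c2
      · rw [e q q1, r1, Function.update_self] at h
        exact absurd (mem_image.2 ⟨q, q1, h⟩) c2
      · rw [e q q1, e r r1] at h
        exact b2.2 q q1 r r1 h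

/-- the strategy of the second player -/
theorem game {M B : Bigraph} {n k c : ℕ} (dep : M.V → Finset ℕ) (hc : ∀ v, (dep v).card ≤ c)
    (w : (ℕ → ℕ) → M.V → B.V)
    (loc : ∀ a a' v, (∀ p ∈ dep v, a' p = a p) → w a' v = w a v)
    (hl : ∀ a x, ∃ x', w a (.inl x) = .inl x') (hr : ∀ a y, ∃ y', w a (.inr y) = .inr y')
    (inj : ∀ a a' u v, w a u = w a' v → u = v)
    (lt : ∀ a u v, Sum.Lex (· < ·) (· < ·) u v → Sum.Lex (· < ·) (· < ·) (w a u) (w a v))
    (adj : ∀ a u v, GoodOn n a (dep u ∪ dep v) → (M.Adj u v ↔ B.Adj (w a u) (w a v)))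
    (hn : c * (k + 1) ≤ n) (φ : Fm k) (h : φ.Holds M) : φ.Holds B := by
  have sub : ∀ (ρ : Fin k → Option M.V) i u, ρ i = some u →
      dep u ⊆ univ.biUnion fun i => (ρ i).elim ∅ dep := fun ρ i u e p hp =>
    mem_biUnion.2 ⟨i, mem_univ _, by rwa [e]⟩
  have key : ∀ (φ : Fm k) (ρ : Fin k → Option M.V) (a : ℕ → ℕ),
      GoodOn n a (univ.biUnion fun i => (ρ i).elim ∅ dep) → φ.Sat M ρ →
      φ.Sat B fun i => (ρ i).map (w a) := by
    intro φ
    induction φ with
    | left i =>
      rintro ρ a - ⟨x, e⟩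
      obtain ⟨x', e'⟩ := hl a x
      exact ⟨x', by simp [e, e']⟩
    | right i =>
      rintro ρ a - ⟨x, e⟩
      obtain ⟨x', e'⟩ := hr a x
      exact ⟨x', by simp [e, e']⟩
    | adj i j =>
      rintro ρ a g ⟨u, v, e1, e2, e⟩
      exact ⟨w a u, w a v, by simp [e1], by simp [e2],
        (adj a u v (g.mono (union_subset (sub ρ i u e1) (sub ρ j v e2)))).1 e⟩
    | nadj i j =>
      rintro ρ a g ⟨u, v, e1, e2, e⟩
      exact ⟨w a u, w a v, by simp [e1], by simp [e2], fun c =>
        e ((adj a u v (g.mono (union_subset (sub ρ i u e1) (sub ρ j v e2)))).2 c)⟩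
    | eq i j =>
      rintro ρ a - ⟨u, v, e1, e2, e⟩
      exact ⟨w a u, w a v, by simp [e1], by simp [e2], by rw [e]⟩
    | ne i j =>
      rintro ρ a - ⟨u, v, e1, e2, e⟩
      exact ⟨w a u, w a v, by simp [e1], by simp [e2], fun c => e (inj a a u v c)⟩
    | lt i j =>
      rintro ρ a - ⟨u, v, e1, e2, e⟩
      exact ⟨w a u, w a v, by simp [e1], by simp [e2], lt a u v e⟩
    | all ι f ih => exact fun ρ a g h b => ih b ρ a g (h b)
    | any ι f ih => exact fun ρ a g ⟨b, h⟩ => ⟨b, ih b ρ a g h⟩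
    | ex m i φ ih =>
      rintro ρ a g ⟨S, hm, hS⟩
      suffices h : ∀ v, ∃ a', v ∈ S →
          φ.Sat B (Function.update (fun i => (ρ i).map (w a)) i (some (w a' v))) by
        choose a' h using h
        refine ⟨S.image fun v => w (a' v) v, ?_, fun z hz => ?_⟩
        · rwa [card_image_of_injective _ fun u v e => inj _ _ u v e]
        · obtain ⟨v, hv, rfl⟩ := mem_image.1 hz
          exact h v hv
      intro v
      obtain ⟨a', a1, a2⟩ := g.extend (dep v) (by
        have h1 : (univ.biUnion fun i => (ρ i).elim ∅ dep).card ≤ (univ : Finset (Fin k)).card * c :=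
          card_biUnion_le_card_mul _ _ _ fun i _ => by
            cases ρ i with
            | none => simp
            | some u => exact hc u
        rw [card_univ, Fintype.card_fin] at h1
        have := card_union_le (univ.biUnion fun i => (ρ i).elim ∅ dep) (dep v)
        have := hc v
        nlinarith)
      have h2 := ih (Function.update ρ i (some v)) a' (a2.mono fun p hp => by
        obtain ⟨j, -, hj⟩ := mem_biUnion.1 hp
        by_cases e : j = i
        · subst e
          rw [Function.update_self] at hj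
          exact mem_union_right _ hj
        · rw [Function.update_of_ne e] at hj
          exact mem_union_left _ (mem_biUnion.2 ⟨j, mem_univ _, hj⟩))
      refine ⟨a', fun hv => ?_⟩
      convert h2 (hS v hv) using 1
      funext j
      by_cases e : j = i
      · subst e
        simp
      · rw [Function.update_of_ne e, Function.update_of_ne e]
        cases e2 : ρ j with
        | none => rfl
        | some u => exact congrArg some (loc a a' u fun p hp => a1 p (sub ρ j u e2 hp)).symm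
  exact key φ _ id ⟨by simp, by simp⟩ h

/-- a bigraph that is not an interval bigraph contains a minimal forbidden induced subgraph -/
theorem exists_member {G : Bigraph} (hG : ¬ G.IntervalOn Set.univ Set.univ) :
    ∃ (M : Bigraph) (f : Fin M.s → Fin G.s) (g : Fin M.t → Fin G.t), M.MinForb ∧
      M.s + M.t ≤ G.s + G.t ∧ ∀ x y, M.E x y ↔ G.E (f x) (g y) := by
  classical
  have ex : ∃ m, ∃ (M : Bigraph) (f : Fin M.s → Fin G.s) (g : Fin M.t → Fin G.t),
      ¬ M.IntervalOn Set.univ Set.univ ∧ M.s + M.t = m ∧ ∀ x y, M.E x y ↔ G.E (f x) (g y) :=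
    ⟨_, G, id, id, hG, rfl, fun _ _ => Iff.rfl⟩
  obtain ⟨M, f, g, h1, h2, h3⟩ := Nat.find_spec ex
  refine ⟨M, f, g, ⟨h1, fun S T hST => ?_⟩,
    h2 ▸ Nat.find_min' ex ⟨G, id, id, hG, rfl, fun _ _ => Iff.rfl⟩, h3⟩
  let e := S.toFinset.orderEmbOfFin rfl
  let e' := T.toFinset.orderEmbOfFin rfl
  have hS : ∀ x ∈ S, ∃ i, e i = x := fun x hx => by
    have : x ∈ Set.range e := by rw [range_orderEmbOfFin]; simpa using hx
    exact this
  have hT : ∀ x ∈ T, ∃ i, e' i = x := fun x hx => by
    have : x ∈ Set.range e' := by rw [range_orderEmbOfFin]; simpa using hx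
    exact this
  have c1 : S.toFinset.card ≤ M.s := by simpa using card_le_univ S.toFinset
  have c2 : T.toFinset.card ≤ M.t := by simpa using card_le_univ T.toFinset
  have c3 : S.toFinset.card + T.toFinset.card < M.s + M.t := by
    by_contra c
    refine hST ⟨Set.toFinset_eq_univ.1 (eq_univ_of_card _ ?_),
      Set.toFinset_eq_univ.1 (eq_univ_of_card _ ?_)⟩ <;> rw [Fintype.card_fin] <;> omega
  by_contra hc
  refine Nat.find_min ex (h2 ▸ c3) ⟨⟨_, _, fun x y => M.E (e x) (e' y)⟩, fun x => f (e x),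
    fun y => g (e' y), ?_, rfl, fun x y => h3 _ _⟩
  rintro ⟨l, r, l', r', a1, a2, a3⟩
  have e1 : ∀ x, ∃ a b : ℝ, a ≤ b ∧ (x ∈ S → ∃ i, e i = x ∧ a = l i ∧ b = r i) := fun x => by
    by_cases hx : x ∈ S
    · obtain ⟨i, hi⟩ := hS x hx
      exact ⟨_, _, a1 i, fun _ => ⟨i, hi, rfl, rfl⟩⟩
    · exact ⟨0, 0, le_rfl, fun h => absurd h hx⟩
  have e2 : ∀ x, ∃ a b : ℝ, a ≤ b ∧ (x ∈ T → ∃ i, e' i = x ∧ a = l' i ∧ b = r' i) := fun x => by
    by_cases hx : x ∈ T
    · obtain ⟨i, hi⟩ := hT x hx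
      exact ⟨_, _, a2 i, fun _ => ⟨i, hi, rfl, rfl⟩⟩
    · exact ⟨0, 0, le_rfl, fun h => absurd h hx⟩
  choose a b hab e1 using e1
  choose c d hcd e2 using e2
  refine hc ⟨a, b, c, d, hab, hcd, fun x hx y hy => ?_⟩
  obtain ⟨i, rfl, i1, i2⟩ := e1 x hx
  obtain ⟨j, rfl, j1, j2⟩ := e2 y hy
  rw [i1, i2, j1, j2]
  exact a3 i trivial j trivial

end Pool.Agent.Lib.MP_ae8a84_co.Loc
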