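import Pool.Agent.Lib.MP_ae8a84_co.Loc.Php

/-!
Locality of the interval representation and the strategy for the pigeonhole bigraph.
-/

namespace Pool.Agent.Lib.MP_ae8a84_co.Loc

open Pool.Agent.Lib.MP_ae8a84_co.NP Pool.Agent.Shared.CookLevin

/-- left end of the interval of a vertex -/
def LL (n : ℕ) (σ : ℕ → Bool) (d : Dsc) : ℤ := cond d.1 (pt n σ d.2) (sl n (fun t => !σ t) d.2)

/-- right end of the interval of a vertex -/
def RR (n : ℕ) (σ : ℕ → Bool) (d : Dsc) : ℤ :=
  cond d.1 (pt n σ d.2) (max (sl n (fun t => !σ t) d.2) (sr n (fun t => !σ t) d.2))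

theorem LL_le (n : ℕ) (σ : ℕ → Bool) (d : Dsc) : LL n σ d ≤ RR n σ d := by
  obtain ⟨b, d⟩ := d
  cases b <;> simp [LL, RR]

theorem LR_loc {n : ℕ} {σ σ' : ℕ → Bool} {d : Dsc} (h1 : σ' d.2.1 = σ d.2.1)
    (h2 : σ' d.2.2.1 = σ d.2.2.1) (h3 : σ' d.2.2.2 = σ d.2.2.2) :
    LL n σ' d = LL n σ d ∧ RR n σ' d = RR n σ d := by
  simp only [LL, RR, pt, sl, sr, h1, h2, h3, and_self]

theorem adj_iff {n : ℕ} {P N : List Cl} (hP : Good n P) (hN : Good n N) {σ : ℕ → Bool} {d e : Dsc}
    (hd : d ∈ verts n P N) (he : e ∈ verts n N P)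
    (h1 : d.2 ∈ P → ∃ t, Leg d.2 t ∧ σ t = true) (h2 : e.2 ∈ N → ∃ t, Leg e.2 t ∧ σ t = false) :
    adj d e = true ↔ LL n (fun t => !σ t) e ≤ RR n σ d ∧ LL n σ d ≤ RR n (fun t => !σ t) e := by
  have h3 : e.2 ∈ N → ∃ t, Leg e.2 t ∧ (!σ t) = true := fun hC => by simpa using h2 hC
  have le : ∀ (σ : ℕ → Bool) (s : Cl), s.2.1 < s.2.2 → s.1 ≤ 2 * n + 1 → sl n σ s ≤ sr n σ s :=
    fun σ s a b => by
      have := @tm_lt n _ _ a
      unfold sl sr
      split_ifs <;> omega
  simp only [verts, List.mem_append, List.mem_map] at hd he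
  rcases hd with ⟨d, hd, rfl⟩ | ⟨d, hd, rfl⟩ <;> rcases he with ⟨e, he, rfl⟩ | ⟨e, he, rfl⟩ <;>
    simp only [adj, LL, RR, cond_true, cond_false, Bool.not_false, Bool.not_true, Bool.true_and,
      Bool.false_and, Bool.not_not]
  · obtain ⟨a1, a2, -⟩ := seg_spec hN hd
    obtain ⟨b1, b2, -⟩ := seg_spec hP he
    have := @seg_le n (fun t => !σ t) d e a2 b2
    simp only [Bool.not_not] at this
    rw [max_eq_right (le _ _ a1 a2), max_eq_right (le _ _ b1 b2), seg_le b2 a2, this]
    simp [and_comm]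
  · obtain ⟨a1, a2, -⟩ := seg_spec hN hd
    rw [max_eq_right (le _ _ a1 a2), cov_iff hN he hd (h3 he), and_comm]
  · obtain ⟨a1, a2, -⟩ := seg_spec hP he
    rw [max_eq_right (le _ _ a1 a2), cov_iff hP hd he (h1 hd)]
  · obtain ⟨t, -, t2, t3, t4, -⟩ := pt_spec hP hd (h1 hd)
    obtain ⟨u, -, u2, u3, u4, -⟩ := pt_spec hN he (h3 he)
    have a1 := @tm_lt n u t
    have a2 := @tm_lt n t u
    have : t ≠ u := fun c => by simp [← c, t2] at u2
    simp only [Bool.false_eq_true, false_iff]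
    omega

/-- three truth values -/
abbrev Pat := Bool × Bool × Bool

/-- the values at the three times of a vertex -/
def pat (σ : ℕ → Bool) (d : Dsc) : Pat := (σ d.2.1, σ d.2.2.1, σ d.2.2.2)

/-- an assignment with given values at the three times of a vertex -/
def unpat (d : Dsc) (b : Pat) (t : ℕ) : Bool :=
  if t = d.2.1 then b.1 else if t = d.2.2.1 then b.2.1 else b.2.2

theorem unpat_pat (n : ℕ) (σ : ℕ → Bool) (d : Dsc) :
    LL n (unpat d (pat σ d)) d = LL n σ d ∧ RR n (unpat d (pat σ d)) d = RR n σ d := by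
  refine LR_loc (by simp [unpat, pat]) ?_ ?_ <;> simp only [unpat, pat] <;> split_ifs <;> simp_all

/-- numbering of the pairs of a vertex and three truth values -/
noncomputable def enc (s : ℕ) : Fin s × Pat ≃ Fin (s * 8) :=
  ((Equiv.refl _).prodCongr (Fintype.equivFinOfCardEq (by simp))).trans finProdFinEquiv

theorem enc_lt {s : ℕ} {x y : Fin s} (h : x < y) (b c : Pat) : enc s (x, b) < enc s (y, c) := by
  simp only [enc, Equiv.trans_apply, Equiv.prodCongr_apply, Prod.map_apply, Equiv.coe_refl, id,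
    Fin.lt_def, finProdFinEquiv_apply_val]
  have := Fin.lt_def.1 h
  omega

theorem length_verts (φ : E3 ℕ) :
    (verts (len φ) (pos φ) (neg φ)).length + (verts (len φ) (neg φ) (pos φ)).length ≤
      396 * φ.length ^ 2 + 58 * φ.length + 12 := by
  have h : ∀ {α β : Type} (l : List α) (c : ℕ) (f : α → List β), (∀ i, (f i).length = c) →
      (l.flatMap f).length = l.length * c := fun l c f hf => by
    induction l with
    | nil => simp
    | cons x l ih => rw [List.flatMap_cons, List.length_append, ih, hf, List.length_cons]; ring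
  have h1 : ∀ n P, (segs n P).length = n + P.length * 3 := fun n P => by
    rw [segs, List.length_append, h _ 3 _ fun _ => rfl]
    simp
  have h2 : ∀ W B, (rowP W B).length = 3 + W * 6 := fun W B => by
    rw [rowP, List.length_append, h _ 6 _ fun _ => rfl]
    simp
  have h3 : ∀ W B c, (rowN W B c).length = 3 + W * 6 := fun W B c => by
    rw [rowN, List.length_append, h _ 6 _ fun _ => rfl]
    simp
  have h4 : (pos φ).length = 3 * φ.length + φ.length * (3 + 6 * φ.length * 6) := by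
    rw [pos, List.length_append, h _ _ _ fun _ => h2 _ _]
    simp
  have h5 : (neg φ).length = φ.length * (3 + 6 * φ.length * 6) := by
    rw [neg, h _ _ _ fun _ => h3 _ _ _]
    simp
  simp only [verts, List.length_append, List.length_map, h1, h4, h5, len, base]
  exact le_of_eq (by ring)

theorem main (k : ℕ) : ∃ M B : Bigraph, M.MinForb ∧ M.TwoFerrers ∧
    B.IntervalOn Set.univ Set.univ ∧ M.s + M.t ≤ (60 * (k + 1)) ^ 6 ∧
    B.s + B.t ≤ (60 * (k + 1)) ^ 6 ∧
    ∀ φ : Fm k, φ.Holds M → φ.Holds B := by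
  classical
  obtain ⟨n, hn⟩ : ∃ n, n = 9 * (k + 1) := ⟨_, rfl⟩
  obtain ⟨φ, hφ⟩ : ∃ φ, φ = rename3 (php n) := ⟨_, rfl⟩
  have hb : ∀ C ∈ φ, _ := hφ ▸ lt_rename3 (php n)
  have hP := good_pos φ
  have hN := good_neg φ
  have h3 : 3 ≤ len φ := Nat.le_add_left _ _
  have hX : verts (len φ) (pos φ) (neg φ) ≠ [] :=
    List.ne_nil_of_mem (seg_mem (bb_mem (show 0 < _ by omega)))
  obtain ⟨M, f, g, m1, m2, m3⟩ := exists_member (G := ofMatrix (mat (verts (len φ) (pos φ) (neg φ))
      (verts (len φ) (neg φ) (pos φ)))) fun c => by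
    obtain ⟨_, _, _, _, e⟩ := (interval_mat hX).1 c
    exact php_unsat n ((sat3_rename3 _).1 (hφ ▸ sat3_of_sat2 (sat_of_rep h3 hP hN e)))
  let u : Fin M.s → Dsc := fun x => (verts (len φ) (pos φ) (neg φ)).getD (f x) default
  let v : Fin M.t → Dsc := fun y => (verts (len φ) (neg φ) (pos φ)).getD (g y) default
  have huv : ∀ x y, u x ∈ verts (len φ) (pos φ) (neg φ) ∧ v y ∈ verts (len φ) (neg φ) (pos φ) ∧
      (M.E x y ↔ adj (u x) (v y) = true) := fun x y =>
    ⟨(mat_E hX _ (g y)).1, (mat_E hX (f x) _).2.1, (m3 x y).trans (mat_E hX _ _).2.2⟩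
  let l : Fin (M.s * 8) → ℤ := fun x => LL (len φ)
    (unpat (u ((enc _).symm x).1) ((enc _).symm x).2) (u ((enc _).symm x).1)
  let r : Fin (M.s * 8) → ℤ := fun x => RR (len φ)
    (unpat (u ((enc _).symm x).1) ((enc _).symm x).2) (u ((enc _).symm x).1)
  let l' : Fin (M.t * 8) → ℤ := fun x => LL (len φ)
    (unpat (v ((enc _).symm x).1) ((enc _).symm x).2) (v ((enc _).symm x).1)
  let r' : Fin (M.t * 8) → ℤ := fun x => RR (len φ)
    (unpat (v ((enc _).symm x).1) ((enc _).symm x).2) (v ((enc _).symm x).1)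
  let B : Bigraph := ⟨M.s * 8, M.t * 8, fun x y => l' y ≤ r x ∧ l x ≤ r' y⟩
  let σ : (ℕ → ℕ) → ℕ → Bool := fun a i => val a ((vars3 (php n)).getD i default)
  let dT : ℕ → Finset ℕ := fun t =>
    ((depV φ t).map fun i => ((vars3 (php n)).getD i default).1).toFinset
  let dD : Dsc → Finset ℕ := fun d => dT d.2.1 ∪ dT d.2.2.1 ∪ dT d.2.2.2
  have cT : ∀ t, (dT t).card ≤ 3 := fun t => (List.toFinset_card_le _).trans (by simp [depV])
  have cD : ∀ d, (dD d).card ≤ 9 := fun d => by
    have a1 := Finset.card_union_le (dT d.2.1 ∪ dT d.2.2.1) (dT d.2.2.2)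
    have a2 := Finset.card_union_le (dT d.2.1) (dT d.2.2.1)
    have := cT d.2.1
    have := cT d.2.2.1
    have := cT d.2.2.2
    change (dT d.2.1 ∪ dT d.2.2.1 ∪ dT d.2.2.2).card ≤ 9
    omega
  have locT : ∀ a a' t, (∀ p ∈ dT t, a' p = a p) → tau φ (σ a') t = tau φ (σ a) t :=
    fun a a' t h => tau_loc fun i hi => by
      have := h _ (List.mem_toFinset.2 (List.mem_map_of_mem hi))
      simp only [σ, val, this]
  have locD : ∀ a a' d, (∀ p ∈ dD d, a' p = a p) →
      pat (tau φ (σ a')) d = pat (tau φ (σ a)) d ∧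
      pat (fun t => !tau φ (σ a') t) d = pat (fun t => !tau φ (σ a) t) d := fun a a' d h => by
    have a1 := locT a a' d.2.1 fun p hp => h p (by simp [dD, hp])
    have a2 := locT a a' d.2.2.1 fun p hp => h p (by simp [dD, hp])
    have a3 := locT a a' d.2.2.2 fun p hp => h p (by simp [dD, hp])
    simp only [pat, a1, a2, a3, and_self]
  have sat : ∀ a (d : Dsc), GoodOn n a (dD d) → _ := fun a d hg =>
    tau_sat (σ := σ a) hb (C := d.2) fun hi => by
      have a1 : ∀ i ∈ depV φ d.2.1, ((vars3 (php n)).getD i default).1 ∈ dD d := fun i hi =>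
        Finset.mem_union_left _ (Finset.mem_union_left _
          (List.mem_toFinset.2 (List.mem_map_of_mem hi)))
      have a2 := a1 (φ.getD (blk φ d.2.1) default).1.2 (by simp [depV])
      have a3 := a1 (φ.getD (blk φ d.2.1) default).2.1.2 (by simp [depV])
      rw [List.getD_eq_getElem φ _ hi] at a2 a3
      have a4 := List.getElem_mem hi
      generalize φ[blk φ d.2.1] = C at a2 a3 a4
      rw [hφ] at a4
      obtain ⟨C', hC', rfl⟩ := List.mem_map.1 a4
      obtain ⟨b1, b2, b3⟩ := mem_vars3 hC'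
      simp only [σ, getD_idxOf b1, getD_idxOf b2, getD_idxOf b3] at a2 a3 ⊢
      exact php_loc hg C' hC' a2 a3
  let w : (ℕ → ℕ) → M.V → B.V := fun a => Sum.map
    (fun x => enc _ (x, pat (tau φ (σ a)) (u x)))
    (fun y => enc _ (y, pat (fun t => !tau φ (σ a) t) (v y)))
  have key : ∀ a x y, GoodOn n a (dD (u x) ∪ dD (v y)) → (M.E x y ↔ B.E
      (enc _ (x, pat (tau φ (σ a)) (u x))) (enc _ (y, pat (fun t => !tau φ (σ a) t) (v y)))) :=
    fun a x y hg => by
      obtain ⟨a1, a2, a3⟩ := huv x y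
      rw [a3, adj_iff hP hN a1 a2 (sat a _ (hg.mono Finset.subset_union_left)).1
        (sat a _ (hg.mono Finset.subset_union_right)).2]
      simp only [B, l, r, l', r', Equiv.symm_apply_apply, unpat_pat]
  have size : (M.s + M.t) * 8 ≤ (60 * (k + 1)) ^ 6 := by
    rw [mat_s, mat_t hX] at m2
    have a0 := m2.trans (length_verts φ)
    have a1 : φ.length ≤ 2 * (10 * (k + 1)) ^ 3 := by
      rw [hφ, rename3, List.length_map]
      exact (php_length n).trans (by gcongr; omega)
    have a2 : 1 ≤ (10 * (k + 1)) ^ 3 := Nat.one_le_pow _ _ (by omega)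
    rw [show (60 * (k + 1)) ^ 6 = 46656 * ((10 * (k + 1)) ^ 3) ^ 2 by ring]
    generalize (10 * (k + 1)) ^ 3 = z at a1 a2
    nlinarith
  refine ⟨M, B, m1, ?_, ?_, by omega, (add_mul _ _ _).ge.trans size,
    game (n := n) (c := 9) (Sum.elim (fun x => dD (u x))
    fun y => dD (v y)) (by rintro (x | y) <;> exact cD _) w ?_ (fun _ _ => ⟨_, rfl⟩)
    (fun _ _ => ⟨_, rfl⟩) ?_ ?_ ?_ hn.ge⟩
  · obtain ⟨p, q, a, b, h⟩ := two_mat hP hN hX
    exact ⟨fun x => p (f x), fun x => q (f x), fun y => a (g y), fun y => b (g y),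
      fun x y => (m3 x y).trans (h _ _)⟩
  · refine ⟨fun x => l x, fun x => r x, fun y => l' y, fun y => r' y,
      fun x => Int.cast_le.2 (LL_le _ _ _), fun y => Int.cast_le.2 (LL_le _ _ _),
      fun x _ y _ => ?_⟩
    rw [icc_inter_nonempty (Int.cast_le.2 (LL_le _ _ _)) (Int.cast_le.2 (LL_le _ _ _)),
      Int.cast_le, Int.cast_le]
  · rintro a a' (x | y) h
    · exact congrArg (fun b => Sum.inl (enc _ (x, b))) (locD a a' _ h).1
    · exact congrArg (fun b => Sum.inr (enc _ (y, b))) (locD a a' _ h).2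
  · rintro a a' (x | y) (x' | y') h
    · exact congrArg Sum.inl (congrArg Prod.fst ((enc _).injective (Sum.inl.inj h)))
    · exact absurd h Sum.inl_ne_inr
    · exact absurd h Sum.inr_ne_inl
    · exact congrArg Sum.inr (congrArg Prod.fst ((enc _).injective (Sum.inr.inj h)))
  · rintro a _ _ (h | h | ⟨x, y⟩)
    · exact .inl (enc_lt h _ _)
    · exact .inr (enc_lt h _ _)
    · exact .sep _ _
  · rintro a (x | y) (x' | y') hg
    · exact Iff.rfl
    · exact key a x y' hg
    · exact key a x' y (hg.mono (Finset.union_comm _ _).subset)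
    · exact Iff.rfl

end Pool.Agent.Lib.MP_ae8a84_co.Loc
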