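import Pool.Agent.Lib.MP_ae8a84_co.Loc.Game
import Pool.Agent.Lib.MP_ae8a84_co.NP.Hard

/-!
The pigeonhole formula with three literals per clause, and the locality of the passage to
two-page formulas.
-/

namespace Pool.Agent.Lib.MP_ae8a84_co.Loc

open Pool.Agent.Lib.MP_ae8a84_co.NP Pool.Agent.Shared.CookLevin

/-- last entry `true`: the pigeon `p` sits in the hole `j`; `false`: in a hole below `j` -/
abbrev PV := ℕ × ℕ × Bool

/-- `n + 1` pigeons and `n` holes -/
def php (n : ℕ) : E3 PV := (List.range (n + 1)).flatMap fun p =>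
  [((false, p, 0, false), (false, p, 0, false), (false, p, 0, false)),
    ((true, p, n, false), (true, p, n, false), (true, p, n, false))] ++
  (List.range n).flatMap fun j => ((true, p, j, false), (true, p, j, true), (false, p, j + 1, false)) ::
    (List.range p).map fun q => ((false, p, j, true), (false, q, j, true), (false, q, j, true))

/-- the values given by a placement of the pigeons -/
def val (a : ℕ → ℕ) (v : PV) : Bool := if v.2.2 then decide (a v.1 = v.2.1) else decide (a v.1 < v.2.1)

theorem php_unsat (n : ℕ) : ¬ Sat3 (php n) := by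
  rintro ⟨τ, h⟩
  simp only [php, List.forall_mem_flatMap, List.forall_mem_append, List.forall_mem_cons,
    List.forall_mem_map, List.mem_range, List.not_mem_nil, false_imp_iff, implies_true, and_true,
    or_self] at h
  have ex : ∀ p : Fin (n + 1), ∃ j : Fin n, τ (p, j, true) = true := fun p => by
    obtain ⟨⟨h1, h2⟩, h3⟩ := h p p.2
    by_contra c
    have key : ∀ j ≤ n, τ (p, j, false) = false := fun j => by
      induction j with
      | zero => exact fun _ => h1
      | succ j ih =>
        intro hj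
        rcases (h3 j hj).1 with e | e | e
        · rw [ih (by omega)] at e
          exact absurd e (by simp)
        · exact absurd ⟨⟨j, hj⟩, e⟩ c
        · exact e
    rw [key n le_rfl] at h2
    exact absurd h2 (by simp)
  choose f hf using ex
  obtain ⟨p, q, hpq, e⟩ := Fintype.exists_ne_map_eq_of_card_lt f (by simp)
  have key : ∀ p q : Fin (n + 1), q < p → f p ≠ f q := fun p q hlt e => by
    rcases ((h p p.2).2 (f p) (f p).2).2 q hlt with c | c
    · rw [hf p] at c
      exact absurd c (by simp)
    · rw [e, hf q] at c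
      exact absurd c (by simp)
  rcases lt_or_gt_of_ne hpq with c | c
  · exact key q p c e.symm
  · exact key p q c e

theorem php_loc {n : ℕ} {a : ℕ → ℕ} {D : Finset ℕ} (g : GoodOn n a D) :
    ∀ C ∈ php n, C.1.2.1 ∈ D → C.2.1.2.1 ∈ D →
      val a C.1.2 = C.1.1 ∨ val a C.2.1.2 = C.2.1.1 ∨ val a C.2.2.2 = C.2.2.1 := by
  simp only [php, List.forall_mem_flatMap, List.forall_mem_append, List.forall_mem_cons,
    List.forall_mem_map, List.mem_range, List.not_mem_nil, false_imp_iff, implies_true, and_true,
    or_self]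
  refine fun p _ => ⟨⟨by simp [val], fun hp _ => by simpa [val] using g.1 p hp⟩,
    fun j _ => ⟨fun _ _ => ?_, fun q hq hp hq' => ?_⟩⟩
  · simp only [val, Bool.false_eq_true, if_false, if_true, decide_eq_true_eq,
      decide_eq_false_iff_not]
    omega
  · have := g.2 p hp q hq'
    simp only [val, if_true, decide_eq_false_iff_not]
    omega

theorem php_length (n : ℕ) : (php n).length ≤ 2 * (n + 1) ^ 3 := by
  have h : ∀ {β : Type} (m c : ℕ) (f : ℕ → List β), (∀ i < m, (f i).length ≤ c) →
      ((List.range m).flatMap f).length ≤ m * c := fun m c f hf => by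
    induction m with
    | zero => simp
    | succ m ih =>
      rw [List.range_succ, List.flatMap_append, List.length_append]
      have := ih fun i hi => hf i (by omega)
      have := hf m (by omega)
      simp only [List.flatMap_cons, List.flatMap_nil, List.append_nil]
      nlinarith
  refine (h (n + 1) (2 + n * (n + 1)) _ fun p hp => ?_).trans (by nlinarith [Nat.zero_le (n ^ 3)])
  rw [List.length_append]
  refine Nat.add_le_add le_rfl (h n (n + 1) _ fun j _ => ?_)
  simp only [List.length_cons, List.length_map, List.length_range]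
  omega

section two

variable (φ : E3 ℕ) (σ : ℕ → Bool)

/-- the value of the literal of a column -/
def lit (j : ℕ) : Bool := σ (j / 2) == decide (j % 2 = 1)

/-- the column of the first true literal of a clause -/
def sel (i : ℕ) : ℕ :=
  if σ (φ.getD i default).1.2 = (φ.getD i default).1.1 then col (φ.getD i default).1
  else if σ (φ.getD i default).2.1.2 = (φ.getD i default).2.1.1 then col (φ.getD i default).2.1
  else col (φ.getD i default).2.2

/-- the values in a block -/
def blockVal (W i o : ℕ) : Bool :=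
  if o < W then !lit σ (W - 1 - o) else if o < W + 2 then false else
    cell (lit σ ((o - W - 2) / 8)) (decide ((o - W - 2) / 8 ≤ sel φ σ i))
      (decide ((o - W - 2) / 8 < sel φ σ i)) ((o - W - 2) % 8)

/-- the block of a time -/
def blk (p : ℕ) : ℕ := (p - 3) / (9 * (6 * φ.length) + 5)

/-- the offset of a time -/
def off (p : ℕ) : ℕ := (p - 3) % (9 * (6 * φ.length) + 5)

/-- the values of the times -/
def tau (p : ℕ) : Bool := blockVal φ σ (6 * φ.length) (blk φ p) (off φ p)

/-- the variables on which the value of a time and the clauses of its block depend -/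
def depV (p : ℕ) : List ℕ :=
  [(if off φ p < 6 * φ.length then 6 * φ.length - 1 - off φ p
      else (off φ p - 6 * φ.length - 2) / 8) / 2,
    (φ.getD (blk φ p) default).1.2, (φ.getD (blk φ p) default).2.1.2]

variable {φ σ}

theorem tau_loc {σ' : ℕ → Bool} {p : ℕ} (h : ∀ v ∈ depV φ p, σ' v = σ v) :
    tau φ σ' p = tau φ σ p := by
  simp only [depV, List.forall_mem_cons] at h
  obtain ⟨h1, h2, h3, -⟩ := h
  have e : sel φ σ' (blk φ p) = sel φ σ (blk φ p) := by rw [sel, sel, h2, h3]
  unfold tau blockVal lit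
  rw [e]
  split_ifs at h1 ⊢ with c
  · rw [h1]
  · rfl
  · rw [h1]

theorem blk_base {i o : ℕ} (ho : o < 9 * (6 * φ.length) + 5) :
    blk φ (base (6 * φ.length) i + o) = i ∧ off φ (base (6 * φ.length) i + o) = o := by
  have e : base (6 * φ.length) i + o - 3 = o + (9 * (6 * φ.length) + 5) * i := by
    unfold base; rw [mul_comm i]; omega
  simp only [blk, off, e, Nat.add_mul_div_left _ _ (show 0 < 9 * (6 * φ.length) + 5 by omega),
    Nat.add_mul_mod_self_left, Nat.div_eq_of_lt ho, Nat.mod_eq_of_lt ho, zero_add, and_self]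

theorem row_range {W B : ℕ} {c : List ℕ} :
    (∀ C ∈ rowP W B, ∃ o < 9 * W + 5, C.1 = B + o) ∧ ∀ C ∈ rowN W B c, ∃ o < 9 * W + 5, C.1 = B + o := by
  simp only [rowP, rowN, List.forall_mem_append, List.forall_mem_cons, List.forall_mem_flatMap,
    List.mem_range, arc, List.not_mem_nil, false_imp_iff, implies_true, and_true, gp, om,
    Nat.add_assoc B, Nat.add_left_cancel_iff, exists_eq_right']
  refine ⟨⟨by omega, fun j hj => by omega⟩, by omega, fun j hj => by omega⟩

/-- a clause of the two-page formula holds when the clause of its block holds -/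
theorem tau_sat (hb : ∀ C ∈ φ, C.1.2 < 3 * φ.length ∧ C.2.1.2 < 3 * φ.length ∧
    C.2.2.2 < 3 * φ.length) {C : Cl}
    (h : ∀ hi : blk φ C.1 < φ.length, σ φ[blk φ C.1].1.2 = φ[blk φ C.1].1.1 ∨
      σ φ[blk φ C.1].2.1.2 = φ[blk φ C.1].2.1.1 ∨ σ φ[blk φ C.1].2.2.2 = φ[blk φ C.1].2.2.1) :
    (C ∈ pos φ → ∃ t, Leg C t ∧ tau φ σ t = true) ∧
      (C ∈ neg φ → ∃ t, Leg C t ∧ tau φ σ t = false) := by
  obtain ⟨W, hW⟩ : ∃ W, W = 6 * φ.length := ⟨_, rfl⟩
  have li : ∀ l : Bool × ℕ, l.2 < 3 * φ.length → σ l.2 = l.1 →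
      col l < W ∧ lit σ (col l) = true := by
    rintro ⟨_ | _, v⟩ h1 h2 <;> simp only [col, lit, Bool.toNat_false, Bool.toNat_true] at * <;>
      refine ⟨by omega, ?_⟩
    · simp [h2]
    · rw [show (2 * v + 1) / 2 = v by omega, h2]; simp
  have hτ : ∀ i o, o < 9 * W + 5 → tau φ σ (base W i + o) = blockVal φ σ W i o := fun i o ho => by
    subst hW
    rw [tau, (blk_base ho).1, (blk_base ho).2]
  have h1 : ∀ i, ∀ j < W, tau φ σ (om W (base W i) j) = !lit σ j := fun i j hj => by
    rw [om, hτ _ _ (by omega), blockVal, if_pos (by omega),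
      show W - 1 - (W - 1 - j) = j by omega]
  have row : ∀ i (hi : i < φ.length), blk φ C.1 = i →
      (∀ C ∈ rowP W (base W i), tau φ σ C.1 = true ∨ tau φ σ C.2.1 = true ∨ tau φ σ C.2.2 = true) ∧
      ∀ C ∈ rowN W (base W i) [col φ[i].1, col φ[i].2.1, col φ[i].2.2],
        tau φ σ C.1 = false ∨ tau φ σ C.2.1 = false ∨ tau φ σ C.2.2 = false := fun i hi e => by
    subst e
    have hJ : sel φ σ (blk φ C.1) < W ∧ sel φ σ (blk φ C.1) ∈ [col φ[blk φ C.1].1,
        col φ[blk φ C.1].2.1, col φ[blk φ C.1].2.2] ∧ lit σ (sel φ σ (blk φ C.1)) = true := by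
      obtain ⟨b1, b2, b3⟩ := hb _ (List.getElem_mem hi)
      rw [sel, List.getD_eq_getElem _ _ hi]
      split_ifs with c1 c2
      · exact ⟨(li _ b1 c1).1, by simp, (li _ b1 c1).2⟩
      · exact ⟨(li _ b2 c2).1, by simp, (li _ b2 c2).2⟩
      · have c3 := ((h hi).resolve_left c1).resolve_left c2
        exact ⟨(li _ b3 c3).1, by simp, (li _ b3 c3).2⟩
    exact row_complete (τ := tau φ σ) (B := base W (blk φ C.1)) hJ.1 hJ.2.1 hJ.2.2 (h1 _)
      (by rw [← base_succ]; exact h1 _) (by rw [hτ _ _ (by omega)]; simp [blockVal])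
      fun j r a b => by
        rw [show gp W (base W (blk φ C.1)) j r = base W (blk φ C.1) + (W + 2 + 8 * j + r) by
          unfold gp; omega, hτ _ _ (by omega), blockVal, if_neg (by omega), if_neg (by omega),
          show (W + 2 + 8 * j + r - W - 2) / 8 = j by omega,
          show (W + 2 + 8 * j + r - W - 2) % 8 = r by omega]
  refine ⟨fun hC => (leg_iff _ _ _).2 ?_, fun hC => (leg_iff _ _ _).2 ?_⟩
  · rcases List.mem_append.1 hC with hC | hC
    · obtain ⟨u, hu, rfl⟩ := List.mem_map.1 hC
      have hu := List.mem_range.1 hu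
      have a1 := h1 0 (W - 1 - 2 * u) (by omega)
      have a2 := h1 0 (W - 1 - (2 * u + 1)) (by omega)
      rw [show om W (base W 0) (W - 1 - 2 * u) = 3 + 2 * u by unfold om base; omega] at a1
      rw [show om W (base W 0) (W - 1 - (2 * u + 1)) = 3 + 2 * u + 1 by unfold om base; omega] at a2
      simp only [arc, a1, a2, lit, show (W - 1 - (2 * u + 1)) / 2 = (W - 1 - 2 * u) / 2 by omega,
        show (W - 1 - (2 * u + 1)) % 2 = 0 by omega, show (W - 1 - 2 * u) % 2 = 1 by omega]
      cases σ ((W - 1 - 2 * u) / 2) <;> simp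
    · obtain ⟨i, hi, hC⟩ := List.mem_flatMap.1 hC
      obtain ⟨o, ho, e⟩ := (row_range (c := [])).1 C hC
      exact (row i (List.mem_range.1 hi) (e ▸ (blk_base ho).1)).1 C (hW ▸ hC)
  · obtain ⟨⟨D, i⟩, hp, hC⟩ := List.mem_flatMap.1 hC
    obtain ⟨hi, rfl⟩ := List.getElem?_eq_some_iff.1
      (show φ[i]? = some D from List.mem_zipIdx_iff_getElem?.1 hp)
    obtain ⟨o, ho, e⟩ := row_range.2 C hC
    exact (row i hi (e ▸ (blk_base ho).1)).2 C (hW ▸ hC)

end two

end Pool.Agent.Lib.MP_ae8a84_co.Loc
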